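import Pool.Agent.U35.ZV.GA

set_option autoImplicit false

/-!
# Solutions to Post's problem which are invariant for approximable finite classes of oracles

`TLe` (Turing reducibility of sets, given by their characteristic sequences, from Mathlib's
`TuringReducible`) is defined in `Pool/Agent/Helper227/Defs.lean`; `pre X n` (the initial segment of
length `n` of `X`) in `Pool/Agent/Helper227/Use.lean`; `WE X e` (the `e`-th set computably enumerable
relative to `X`) and `jump X` (the Turing jump of `X`) in `Pool/Agent/Helper227/RD/Jump.lean`;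
`chr S` (the characteristic sequence of `S`) in `Pool/Agent/H548R2/Post/Main.lean`.

This is a general criterion for invariance, in the spirit of hyperfinite equivalence relations. The
data are: a monoid of uniformly computable maps `g i` of the Cantor space (with a primitive recursive
multiplication of the indices), and for each stage `s` and each level `n` a finite class
`C s n X = {g i X : i in l s n (pre X (v s n))}` of each oracle `X`, where `l` and `v` are computable. It
is assumed that `X` belongs to its classes, and that for all `n` and `X` the classes of level `n` of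
all the members of one set `D` which contains `X` are equal to `D` from some stage on (this stage need
not be computable). Then there is one index `e` which solves Post's problem for all oracles (and
`W_e^X` is low over `X`), such that `W_e^X ≡_T W_e^Y` for all `X ≡_T Y` such that for almost all levels
`n` the classes of `X` and `Y` agree from a stage `m n` on, where the function `m` is computable in `X`.

Proof. The operators at the points of a class of level `n` act in the same way on the witnesses of
number `n`, with the restraints of all the points of the class. Each requirement acts only finitely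
often at each oracle since its classes stabilise. If the classes of `X` and `Y` agree from the stage
`m n` on, then after this stage the same witnesses of number `n` enter `W_e^X` and `W_e^Y`; only
finitely many witnesses are concerned by the other levels.
-/

namespace Pool.Agent.Results.MP_d9ba76_lc.ApproximableClasses

open Pool.Agent.Helper227 Pool.Agent.H548R2.Post Pool.Agent.U35.ZA Pool.Agent.U35.ZV

/-- A general criterion for the invariance of a solution to Post's problem; see the text above. -/
theorem result
    -- the maps `g i` are uniformly computable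
    (g : ℕ → (ℕ → Bool) → ℕ → Bool) (V : ℕ × ℕ → ℕ) (G : (ℕ × ℕ) × List Bool → List Bool)
    (hV : Computable V) (hG : Computable G)
    (hg : ∀ i X k, pre (g i X) k = G ((i, k), pre X (V (i, k))))
    -- they are a monoid
    (one : ℕ) (mul : ℕ → ℕ → ℕ) (hmul : Primrec₂ mul) (g_one : ∀ X, g one X = X)
    (g_mul : ∀ i k X, g i (g k X) = g (mul k i) X)
    -- the classes
    (l : ℕ → ℕ → List Bool → List ℕ) (v : ℕ → ℕ → ℕ)
    (hl : Computable fun x : (ℕ × ℕ) × List Bool => l x.1.1 x.1.2 x.2) (hv : Computable₂ v)
    (C : ℕ → ℕ → (ℕ → Bool) → Set (ℕ → Bool))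
    (hC : ∀ s n X Y, Y ∈ C s n X ↔ ∃ i ∈ l s n (pre X (v s n)), Y = g i X)
    (hself : ∀ s n X, X ∈ C s n X)
    (hstab : ∀ n X, ∃ (s₀ : ℕ) (D : Set (ℕ → Bool)), X ∈ D ∧ ∀ s ≥ s₀, ∀ Y ∈ D, C s n Y = D) :
    ∃ e : ℕ,
      (∀ X : ℕ → Bool, TLe X (chr (WE X e)) ∧ ¬ TLe (chr (WE X e)) X ∧
        TLe (chr (WE X e)) (jump X) ∧ ¬ TLe (jump X) (chr (WE X e)) ∧
        TLe (jump (chr (WE X e))) (jump X)) ∧
      ∀ X Y : ℕ → Bool, TLe X Y → TLe Y X →
        (∃ (N : ℕ) (m : ℕ → ℕ), TLe (fun p => decide (m p.unpair.1 = p.unpair.2)) X ∧
          ∀ n ≥ N, ∀ s ≥ m n, C s n X = C s n Y) →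
        TLe (chr (WE X e)) (chr (WE Y e)) ∧ TLe (chr (WE Y e)) (chr (WE X e)) := by
  have hGS : GS g mul one (fun X x L => l x.1 x.2 (pre X (v x.1 x.2)) = L) C := by
    refine ⟨g_one, g_mul, hmul, ⟨V, G, hV, hG, hg⟩, ?_, fun X s n => ⟨_, rfl⟩, ?_⟩
    · have h3 : S1 fun y : List ℕ × List ℕ => y.1 = y.2 :=
        S1.of_prim (Primrec.eq.comp Primrec.fst Primrec.snd)
      have h4 : S1 fun y : List Bool × ((ℕ × ℕ) × List ℕ) => l y.2.1.1 y.2.1.2 y.1 = y.2.2 :=
        h3.comp_computable
          (f := fun y : List Bool × ((ℕ × ℕ) × List ℕ) => (l y.2.1.1 y.2.1.2 y.1, y.2.2))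
          ((hl.comp ((Computable.fst.comp Computable.snd).pair Computable.fst)).pair
            (Computable.snd.comp Computable.snd))
      exact US.of_pre (V := fun x : (ℕ × ℕ) × List ℕ => v x.1.1 x.1.2) h4
        (hv.comp (Computable.fst.comp Computable.fst) (Computable.snd.comp Computable.fst))
    · intro X s n L hL Y
      simp only at hL
      rw [hC, hL]
  have hCS : CS C := by
    classical
    refine ⟨hself, fun n X => ?_⟩
    obtain ⟨s₀, D, hX, hD⟩ := hstab n X
    refine ⟨s₀, D, ?_, hX, hD⟩
    rw [← hD s₀ le_rfl X hX]
    refine ((l s₀ n (pre X (v s₀ n))).toFinset.image fun i => g i X).finite_toSet.subset ?_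
    intro Y hY
    obtain ⟨i, hi, rfl⟩ := (hC _ _ _ _).1 hY
    rw [Finset.mem_coe, Finset.mem_image]
    exact ⟨i, List.mem_toFinset.2 hi, rfl⟩
  obtain ⟨e, he, hch⟩ := exists_post hGS hCS
  refine ⟨e, he, fun X Y l2 l1 ⟨N, m, hm, hN⟩ => ?_⟩
  have hM : SI X fun x : ℕ × ℕ => m x.1 = x.2 := by
    have h1 := (tLe_iff_SI.1 hm).comp (f := fun x : ℕ × ℕ => (Nat.pair x.1 x.2, true))
      ((Primrec₂.natPair.comp Primrec.fst Primrec.snd).pair (Primrec.const true))
    exact h1.of_eq fun x => by simp
  have key := WB_inv hGS hCS l1 l2 (N := N) (M := fun n k => m n = k) hM (fun n _ => ⟨_, rfl⟩)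
    (fun n hn k hk s hs => hN n hn s (by rw [hk]; exact hs))
  rw [hch X, hch Y]
  exact ⟨key.2, key.1⟩

end Pool.Agent.Results.MP_d9ba76_lc.ApproximableClasses
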